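import Pool.Agent.H250R3.Berg.Stmts

/-!
Project H250-BERG, TaskRolle: refined theorem of Rolle with endpoints.
-/

set_option autoImplicit false

open Polynomial

namespace Pool.Agent.H165R3.Berg

open Pool.Agent.H250R3.Berg

lemma nu_eq (p : ℝ[X]) :
    nu p = ∑ x ∈ p.roots.toFinset.filter (fun x => 0 < x ∧ x < 1), p.rootMultiplicity x := by
  classical
  unfold nu
  rw [← Multiset.toFinset_sum_count_eq, Multiset.toFinset_filter]
  refine Finset.sum_congr rfl fun x hx => ?_
  rw [Multiset.count_filter_of_pos (p := fun x : ℝ => 0 < x ∧ x < 1) (Finset.mem_filter.1 hx).2,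
    count_roots]

theorem taskRolle : TaskRolle := by
  classical
  intro p E hp hp' hE hev
  set R : Finset ℝ := p.roots.toFinset.filter (fun x => 0 < x ∧ x < 1) with hR
  set S : Finset ℝ := (derivative p).roots.toFinset.filter (fun x => 0 < x ∧ x < 1) with hS
  have hRm : ∀ x, x ∈ R ↔ p.eval x = 0 ∧ 0 < x ∧ x < 1 := by
    intro x
    rw [hR, Finset.mem_filter, Multiset.mem_toFinset, mem_roots hp, IsRoot]
  have hSm : ∀ x, x ∈ S ↔ (derivative p).eval x = 0 ∧ 0 < x ∧ x < 1 := by
    intro x
    rw [hS, Finset.mem_filter, Multiset.mem_toFinset, mem_roots hp', IsRoot]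
  have hE01 : ∀ x ∈ E, x = 0 ∨ x = 1 := by
    intro x hx
    have := hE hx
    simpa using this
  have hdisj : Disjoint R E := by
    rw [Finset.disjoint_left]
    intro x hx hx'
    rw [hRm] at hx
    rcases hE01 x hx' with h | h
    · rw [h] at hx; exact lt_irrefl _ hx.2.1
    · rw [h] at hx; exact lt_irrefl _ hx.2.2
  have hinter : (R ∪ E).card ≤ (S \ (R ∪ E)).card + 1 := by
    refine Finset.card_le_sdiff_of_interleaved fun x hx y hy hxy _ => ?_
    have hD : ∀ x ∈ R ∪ E, p.eval x = 0 ∧ 0 ≤ x ∧ x ≤ 1 := by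
      intro x hx
      rw [Finset.mem_union] at hx
      rcases hx with hx | hx
      · rw [hRm] at hx
        exact ⟨hx.1, hx.2.1.le, hx.2.2.le⟩
      · refine ⟨hev x hx, ?_⟩
        rcases hE01 x hx with h | h <;> rw [h] <;> norm_num
    have h1 := hD x hx
    have h2 := hD y hy
    obtain ⟨z, hz1, hz2⟩ := exists_deriv_eq_zero hxy p.continuousOn (h1.1.trans h2.1.symm)
    refine ⟨z, ?_, hz1⟩
    rw [hSm]
    refine ⟨by rwa [p.deriv] at hz2, by linarith [hz1.1, h1.2.1], by linarith [hz1.2, h2.2.2]⟩
  rw [Finset.card_union_of_disjoint hdisj] at hinter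
  have hm1 : ∀ x ∈ R, 1 ≤ p.rootMultiplicity x := by
    intro x hx
    rw [hRm] at hx
    exact (rootMultiplicity_pos hp).2 hx.1
  have h1 : nu p = ∑ x ∈ R, (p.rootMultiplicity x - 1) + R.card := by
    rw [nu_eq, Finset.card_eq_sum_ones, ← Finset.sum_add_distrib]
    refine Finset.sum_congr rfl fun x hx => ?_
    have := hm1 x hx
    omega
  have h2 : ∑ x ∈ R, (p.rootMultiplicity x - 1) ≤ ∑ x ∈ R, (derivative p).rootMultiplicity x :=
    Finset.sum_le_sum fun x _ => rootMultiplicity_sub_one_le_derivative_rootMultiplicity _ _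
  have h3 : (S \ (R ∪ E)).card ≤ ∑ x ∈ S \ (R ∪ E), (derivative p).rootMultiplicity x := by
    rw [Finset.card_eq_sum_ones]
    refine Finset.sum_le_sum fun x hx => ?_
    have hx' := (hSm x).1 (Finset.mem_sdiff.1 hx).1
    exact (rootMultiplicity_pos hp').2 hx'.1
  have h4 : ∑ x ∈ R, (derivative p).rootMultiplicity x +
      ∑ x ∈ S \ (R ∪ E), (derivative p).rootMultiplicity x ≤ nu (derivative p) := by
    have hd : Disjoint R (S \ (R ∪ E)) := by
      rw [Finset.disjoint_left]
      intro x hx hx'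
      exact (Finset.mem_sdiff.1 hx').2 (Finset.mem_union_left _ hx)
    rw [← Finset.sum_union hd, nu_eq]
    have e : ∑ x ∈ S, (derivative p).rootMultiplicity x =
        ∑ x ∈ R ∪ S, (derivative p).rootMultiplicity x := by
      apply Finset.sum_subset Finset.subset_union_right
      intro x hx hx'
      rw [Finset.mem_union] at hx
      rcases hx with hx | hx
      · rw [hRm] at hx
        rw [hSm] at hx'
        apply rootMultiplicity_eq_zero
        intro h
        exact hx' ⟨h, hx.2⟩
      · exact absurd hx hx'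
    rw [e]
    apply Finset.sum_le_sum_of_subset
    intro x hx
    rw [Finset.mem_union] at hx ⊢
    rcases hx with hx | hx
    · exact Or.inl hx
    · exact Or.inr (Finset.mem_sdiff.1 hx).1
  omega

end Pool.Agent.H165R3.Berg
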